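import Pool.Agent.ZPCd.StX
import Pool.Agent.ZPT.TRD

/-!
# ZPC part A, module ALT: algebraic dependence of points and T-elements in terms of the
transcendence degree (helper87; after ZPS/G/ALF.lean)
-/

set_option autoImplicit false

open scoped BigOperators
open Filter Topology Module

namespace Pool.Agent.ZPCd

open Pool.Agent.ZPC.UB Pool.Agent.ZPT Pool.Agent.ZPE Pool.Agent.ZPA Pool.Agent.ZPS Pool.Agent.ZPA.G Pool.Agent.ZPS.G

section alg

variable {Q : Type} {U : Ultrafilter Q}

/-- every `d + 1` elements of the family satisfy a polynomial relation -/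
def ALT_Al (U : Ultrafilter Q) {ι : Type} (y : Q → ι → Qb) (d : ℕ) : Prop :=
  ∀ Y : Finset ι, Y.card = d + 1 → ∃ R : MvPolynomial ι Qb, R ≠ 0 ∧ R.vars ⊆ Y ∧
    ∀ᶠ k in (U : Filter Q), MvPolynomial.aeval (y k) R = 0

private theorem ALT_FG {K : Type} [Field K] {X Y : Set K} (hY : Y.Finite) : FG X Y :=
  ⟨hY.toFinset, fun y hy => Subfield.subset_closure (Or.inr (by simpa using hy))⟩

private noncomputable def ALT_cst (U : Ultrafilter Q) :
    Qb →+* Subfield.closure (Set.range (algebraMap Qb (LL U))) :=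
  (algebraMap Qb (LL U)).codRestrict _ fun c => Subfield.subset_closure ⟨c, rfl⟩

private theorem ALT_surj (U : Ultrafilter Q) : Function.Surjective (ALT_cst U) := by
  rintro ⟨z, hz⟩
  have h1 : Subfield.closure (Set.range (algebraMap Qb (LL U))) ≤
      (algebraMap Qb (LL U)).fieldRange := by
    rw [Subfield.closure_le]
    rintro _ ⟨c, rfl⟩
    exact ⟨c, rfl⟩
  obtain ⟨c, hc⟩ := h1 hz
  exact ⟨c, Subtype.ext hc⟩

private theorem ALT_ind {ι : Type} (U : Ultrafilter Q) (t : ι → LL U)
    (h : AlgebraicIndependent Qb t) :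
    AlgebraicIndependent (Subfield.closure (Set.range (algebraMap Qb (LL U)))) t :=
  h.ringHom_of_comp_eq (ALT_cst U) (RingHom.id (LL U)) (ALT_surj U)
    Function.injective_id rfl

private theorem ALT_ind' {ι : Type} (U : Ultrafilter Q) (t : ι → LL U)
    (h : AlgebraicIndependent (Subfield.closure (Set.range (algebraMap Qb (LL U)))) t) :
    AlgebraicIndependent Qb t :=
  AlgebraicIndependent.of_ringHom_of_comp_eq (ALT_cst U) (RingHom.id (LL U)) h
    (ALT_cst U).injective rfl

/-- the polynomial relation from a bound of the transcendence degree -/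
private theorem ALT_rel {ι : Type} (y : Q → ι → Qb) {d : ℕ} {S : Set (LL U)} (hS : S.Finite)
    (Y : Finset ι) (hY : Y.card = d + 1) (h : trd (Set.range (algebraMap Qb (LL U))) S ≤ d)
    (hin : ∀ i ∈ Y, gm U (fun k => y k i) ∈ S) :
    ∃ R : MvPolynomial ι Qb, R ≠ 0 ∧ R.vars ⊆ Y ∧
      ∀ᶠ k in (U : Filter Q), MvPolynomial.aeval (y k) R = 0 := by
  classical
  have h5 : ¬ AlgebraicIndependent Qb (fun i : Y => gm U (fun k => y k i.1)) := by
    intro h6
    have h7 := ALT_ind U _ h6
    have e : Fin (d + 1) ≃ Y := (Fintype.equivFinOfCardEq (by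
      rw [Fintype.card_coe, hY])).symm
    have h8 := (le_trd_iff (ALT_FG hS) (d + 1)).2
      ⟨fun i => gm U (fun k => y k (e i).1), fun i => hin _ (e i).2, h7.comp e e.injective⟩
    omega
  rw [algebraicIndependent_iff] at h5
  push Not at h5
  obtain ⟨R, hR, hR0⟩ := h5
  refine ⟨MvPolynomial.rename Subtype.val R, ?_, ?_, ?_⟩
  · intro h
    exact hR0 ((MvPolynomial.rename_injective _ Subtype.val_injective) (h.trans (map_zero _).symm))
  · intro x hx
    have h6 := MvPolynomial.vars_rename (Subtype.val : Y → ι) R hx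
    obtain ⟨z, -, rfl⟩ := Finset.mem_image.1 h6
    exact z.2
  · rw [Pool.Agent.ZPA.gm_aev U (fun k (i : Y) => y k i.1)] at hR
    have h10 := (gm_eq_iff U (g := fun _ => 0)).1 hR
    filter_upwards [h10] with k hk
    rw [MvPolynomial.aeval_rename]
    exact hk

private theorem ALT_trd {ι : Type} [Finite ι] (y : Q → ι → Qb) (d : ℕ) (hp : ALT_Al U y d) :
    trd (Set.range (algebraMap Qb (LL U))) (Set.range fun i => gm U (fun k => y k i)) ≤ d := by
  classical
  by_contra hcon
  push Not at hcon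
  obtain ⟨t, ht, hind⟩ := (le_trd_iff (ALT_FG (Set.finite_range _)) (d + 1)).1 hcon
  choose ν hν using ht
  have hinj : Function.Injective ν := by
    intro i i' h
    apply hind.injective
    rw [← hν, ← hν, h]
  obtain ⟨R, hR0, hRv, hR⟩ := hp (Finset.univ.image ν) (by
    rw [Finset.card_image_of_injective _ hinj, Finset.card_univ, Fintype.card_fin])
  obtain ⟨R', rfl⟩ := MvPolynomial.exists_rename_eq_of_vars_subset_range R ν hinj (by
    intro i hi
    have := hRv hi
    simpa using this)
  have hR'0 : R' ≠ 0 := by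
    rintro rfl
    exact hR0 (map_zero _)
  apply hR'0
  apply ALT_ind' U t hind
  rw [map_zero]
  have h2 : t = fun i => gm U (fun k => y k (ν i)) := by
    funext i
    exact (hν i).symm
  rw [h2, Pool.Agent.ZPA.gm_aev U (fun k i => y k (ν i))]
  refine (gm_eq_iff U (g := fun _ => 0)).2 ?_
  filter_upwards [hR] with k hk
  rw [MvPolynomial.aeval_rename] at hk
  exact hk

end alg

theorem thm_ALT : St_ALT := by
  intro G O F N NT Q _ _ U f d
  classical
  have h1 : crdF U f = Set.range fun i : (N × Fin (G.A.n + 1)) ⊕ NT => gm U (fun k =>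
      (Sum.elim (fun p' => (f.P k p'.1).v p'.2) (fun τ => (((f.TP k τ).u : Qbˣ) : Qb)) :
        (N × Fin (G.A.n + 1)) ⊕ NT → Qb) i) := by
    ext z
    constructor
    · rintro (⟨ν, a, rfl⟩ | ⟨τ, rfl⟩)
      · exact ⟨Sum.inl (ν, a), rfl⟩
      · exact ⟨Sum.inr τ, rfl⟩
    · rintro ⟨(i | i), rfl⟩
      · exact Or.inl ⟨i.1, i.2, rfl⟩
      · exact Or.inr ⟨i, rfl⟩
  constructor
  · intro h
    rw [h1]
    exact ALT_trd _ d h
  · intro h
    have h2 : (crdF U f).Finite := by
      rw [h1]
      exact Set.finite_range _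
    intro Y hY
    refine ALT_rel _ h2 Y hY h fun i _ => ?_
    rw [h1]
    exact ⟨i, rfl⟩

end Pool.Agent.ZPCd
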