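import Pool.Agent.ZPCd.StX
import Pool.Agent.ZPC.StA4
import Pool.Agent.ZPA.AX.GRM
import Pool.Agent.ZPA.G.NFD

/-!
# ZPC part A: the bound for the unbounded part
-/

set_option autoImplicit false

open scoped BigOperators
open Filter Topology Module

namespace Pool.Agent.ZPCd

open Pool.Agent.ZPC.UB Pool.Agent.ZPT Pool.Agent.ZPE Pool.Agent.ZPA Pool.Agent.ZPS Pool.Agent.ZPA.G Pool.Agent.ZPS.G

/-- CNT over the base field -/
def CNTQ : Prop :=
  ∀ (A : AV) (O : OAct A), SEMA O → ∀ (N : Type) [Fintype N]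
    (mo : O.O →+* Module.End ℤ (N → ℤ)) (R B : AddSubgroup (N → ℤ)), StabL O mo R → StabL O mo B →
    finrank Qb (Submodule.span Qb {v : N × Fin A.g → Qb | ∃ m ∈ B, ∃ l, v = tv (X := A) Qb m l} ⊔
        RelS O mo Qb : Submodule Qb (N × Fin A.g → Qb)) + dF O mo (rsp (R : Set (N → ℤ))) ≤
      finrank Qb (Submodule.span Qb {v : N × Fin A.g → Qb | ∃ m ∈ R, ∃ l, v = tv (X := A) Qb m l} ⊔
        (Submodule.span Qb {v : N × Fin A.g → Qb | ∃ m ∈ B, ∃ l, v = tv (X := A) Qb m l} ⊔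
          RelS O mo Qb) : Submodule Qb (N × Fin A.g → Qb)) +
      dF O mo (rsp (R : Set (N → ℤ)) ⊓ rsp (B : Set (N → ℤ)))

/-- CNS over the base field -/
def CNSQ : Prop :=
  ∀ (N : Type) [Fintype N] (R B : AddSubgroup (N → ℤ)),
    Module.finrank Qb (Submodule.span Qb {v : N → Qb | ∃ m ∈ B, v = fun ν => ((m ν : ℤ) : Qb)}) +
        Module.finrank ℝ (rsp (R : Set (N → ℤ))) ≤
      Module.finrank Qb (Submodule.span Qb {v : N → Qb | ∃ m ∈ R, v = fun ν => ((m ν : ℤ) : Qb)} ⊔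
        Submodule.span Qb {v : N → Qb | ∃ m ∈ B, v = fun ν => ((m ν : ℤ) : Qb)} :
          Submodule Qb (N → Qb)) +
      Module.finrank ℝ (rsp (R : Set (N → ℤ)) ⊓ rsp (B : Set (N → ℤ)) : Submodule ℝ (N → ℝ))

section main

variable {G : SV} {O : OAct G.A} {F : G.cd.FD O} {N NT Q : Type} [Fintype N] [Fintype NT]
  (D : Derivation ℤ Qb Qb) (U : Ultrafilter Q) (f : Fm G O F N NT Q)

/-- the germs of the points -/
private noncomputable def AXD_P (ν : N) : G.A.toAVD.Pt (LL U) := gpt U (fun k => f.P k ν)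

private theorem AXD_base (τ : NT) (l : G.cd.L) :
    (gmT U (fun k => f.TP k τ)).b l = cmb (AXD_P U f) (f.c l τ) := by
  unfold AXD_P
  rw [← Pool.Agent.ZPA.gpt_cmb]
  have h : (fun k => cmb (f.P k) (f.c l τ)) = fun k => (f.TP k τ).b l := by
    funext k
    exact (f.base k τ l).symm
  rw [h]
  rfl

private theorem AXD_act (α : O.O) (m : N → ℤ) :
    cmb (AXD_P U f) (f.mo α m) = O.act (LL U) α (cmb (AXD_P U f) m) := by
  unfold AXD_P
  rw [← Pool.Agent.ZPA.gpt_cmb, ← Pool.Agent.ZPA.gpt_cmb, Pool.Agent.ZPA.gpt_act]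
  congr 1
  funext k
  exact f.act k α m

private theorem AXD_stab (k : Q) : StabL O f.mo (relL (f.P k)) := by
  intro α m hm
  have h : cmb (f.P k) m = 0 := hm
  show cmb (f.P k) (f.mo α m) = 0
  rw [f.act, h, map_zero]

open Classical in
private theorem AXD_single (ν : N) : cmb (AXD_P U f) (Pi.single ν 1) = AXD_P U f ν := by
  unfold Pool.Agent.ZPA.cmb
  rw [Finset.sum_eq_single ν]
  · rw [Pi.single_eq_same, one_smul]
  · intro μ _ hμ
    rw [Pi.single_eq_of_ne hμ, zero_smul]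
  · intro h
    exact absurd (Finset.mem_univ ν) h

private theorem AXD_cmb_sum {S : Type} (s : Finset S) (m : S → N → ℤ) :
    cmb (AXD_P U f) (∑ i ∈ s, m i) = ∑ i ∈ s, cmb (AXD_P U f) (m i) := by
  classical
  induction s using Finset.induction_on with
  | empty => rw [Finset.sum_empty, Finset.sum_empty, cmb_zero']
  | insert a s ha ih => rw [Finset.sum_insert ha, Finset.sum_insert ha, cmb_add', ih]

/-- the vectors of the limited combinations with coefficients in the ring -/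
private theorem AXD_rho (B : Set (N → ℤ)) (hB : B = BA D U f) (α : N → O.O) (l : Fin G.A.g)
    (h : ∀ a, (∑ ν, O.act (LL U) (α ν) (AXD_P U f ν)).v a ∈ F1 U D) :
    (fun p : N × Fin G.A.g => (O.rho (α p.1) l p.2 : Qb)) ∈
      Submodule.span Qb {v : N × Fin G.A.g → Qb | ∃ m ∈ B, ∃ l, v = tv (X := G.A) Qb m l} ⊔
        RelS O f.mo Qb := by
  classical
  let m : N → ℤ := ∑ ν, f.mo (α ν) (Pi.single ν 1)
  have hm : m ∈ B := by
    rw [hB]
    intro a
    have h1 : cmb (AXD_P U f) m = ∑ ν, O.act (LL U) (α ν) (AXD_P U f ν) := by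
      rw [AXD_cmb_sum]
      refine Finset.sum_congr rfl fun ν _ => ?_
      rw [AXD_act, AXD_single]
    have h2 : (fun ν => gpt U (fun k => f.P k ν)) = AXD_P U f := rfl
    rw [h2, h1]
    exact h a
  have h3 : (fun p : N × Fin G.A.g => (O.rho (α p.1) l p.2 : Qb)) =
      tv (X := G.A) Qb m l - ∑ ν, rv O f.mo Qb (α ν) ν l := by
    funext p
    rw [Pi.sub_apply, Finset.sum_apply]
    unfold tv rv
    rw [Finset.sum_sub_distrib]
    have h4 : ∑ ν, (if p.1 = ν then algebraMap Qb Qb (O.rho (α ν) l p.2) else 0) =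
        (O.rho (α p.1) l p.2 : Qb) := by
      rw [Finset.sum_ite_eq, if_pos (Finset.mem_univ _)]
      rfl
    rw [h4]
    by_cases h5 : p.2 = l
    · simp only [if_pos h5]
      have h6 : (m p.1 : ℤ) = ∑ ν, f.mo (α ν) (Pi.single ν 1) p.1 := by
        show (∑ ν, f.mo (α ν) (Pi.single ν 1) : N → ℤ) p.1 = _
        rw [Finset.sum_apply]
      rw [h6, map_sum]
      simp
    · simp only [if_neg h5]
      simp
  rw [h3]
  refine Submodule.sub_mem _ (Submodule.mem_sup_left (Submodule.subset_span ⟨m, hm, l, rfl⟩))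
    (Submodule.sum_mem _ fun ν _ => Submodule.mem_sup_right (Submodule.subset_span ⟨_, _, _, rfl⟩))

/-! ### the functionals -/

/-- the functionals -/
private noncomputable def AXD_th : (N × Fin G.A.g) ⊕ NT → Derivation ℤ (LL U) (LL U) → LL U :=
  Sum.elim (fun p E => lgA G.A E (gpt U (fun k => f.P k p.1)) p.2)
    (fun τ E => etaT G E (gmT U (fun k => f.TP k τ)))

private theorem AXD_th_add (hA : St_FNA) (hT : St_FNT) (i : (N × Fin G.A.g) ⊕ NT)
    (E E' : Derivation ℤ (LL U) (LL U)) :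
    AXD_th U f i (E + E') = AXD_th U f i E + AXD_th U f i E' := by
  cases i with
  | inl p => exact (hA G.A (LL U) _ p.2).1 E E'
  | inr τ => exact (hT G (LL U) _).1 E E'

private theorem AXD_th_smul (hA : St_FNA) (hT : St_FNT) (i : (N × Fin G.A.g) ⊕ NT)
    (a : LL U) (E : Derivation ℤ (LL U) (LL U)) :
    AXD_th U f i (a • E) = a * AXD_th U f i E := by
  cases i with
  | inl p => exact (hA G.A (LL U) _ p.2).2.1 a E
  | inr τ => exact (hT G (LL U) _).2.1 a E

private theorem AXD_th_zero (hA : St_FNA) (hT : St_FNT) (i : (N × Fin G.A.g) ⊕ NT)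
    (E : Derivation ℤ (LL U) (LL U)) (hE : ∀ z ∈ F1 U D, E z = 0)
    (hZ : ∀ z ∈ crdF U f, E z = 0) : AXD_th U f i E = 0 := by
  have hc : ∀ c : Qb, algebraMap Qb (LL U) c ∈ cns E := fun c => hE _ (F1_const D U c)
  cases i with
  | inl p =>
    exact (hA G.A (LL U) _ p.2).2.2 E fun a => hZ _ (Or.inl ⟨p.1, a, rfl⟩)
  | inr τ =>
    refine (hT G (LL U) _).2.2 E hc ?_ (hZ _ (Or.inr ⟨τ, rfl⟩))
    intro l a
    have h1 : InF (cns E) (cmb (AXD_P U f) (f.c l τ)) :=
      InF_cmb hc _ _ fun ν _ a => hZ _ (Or.inl ⟨ν, a, rfl⟩)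
    rw [AXD_base]
    exact h1 a

/-! ### the set of the relations -/

/-- the vectors of the relations -/
private def AXD_S (k : Q) : Set ((N × Fin G.A.g) ⊕ NT → Qb) :=
  {v | ∃ x ∈ {v : N × Fin G.A.g → Qb | ∃ m ∈ relL (f.P k), ∃ l, v = tv (X := G.A) Qb m l},
    v = Sum.elim x (0 : NT → Qb)} ∪
  {v | ∃ x ∈ {v : NT → Qb | ∃ m ∈ relT (f.TP k), v = fun ν => ((m ν : ℤ) : Qb)},
    v = Sum.elim (0 : N × Fin G.A.g → Qb) x}

private theorem AXD_S_int (k : Q) (v : (N × Fin G.A.g) ⊕ NT → Qb) (hv : v ∈ AXD_S f k) :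
    (∀ l, ∃ m : N → ℤ, cmb (f.P k) m = 0 ∧ ∀ ν, v (Sum.inl (ν, l)) = ((m ν : ℤ) : Qb)) ∧
      ∃ χ : NT → ℤ, G.cd.cmbT (f.TP k) χ = 0 ∧ ∀ τ, v (Sum.inr τ) = ((χ τ : ℤ) : Qb) := by
  classical
  rcases hv with ⟨_, ⟨m, hm, l, rfl⟩, rfl⟩ | ⟨_, ⟨χ, hχ, rfl⟩, rfl⟩
  · refine ⟨fun l' => ?_, 0, cmbT_zero _, fun τ => ?_⟩
    · by_cases h : l' = l
      · refine ⟨m, hm, fun ν => ?_⟩
        show tv (X := G.A) Qb m l (ν, l') = _
        unfold tv
        rw [if_pos h]
        simp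
      · refine ⟨0, cmb_zero' _, fun ν => ?_⟩
        show tv (X := G.A) Qb m l (ν, l') = _
        unfold tv
        rw [if_neg h]
        simp
    · simp
  · refine ⟨fun l' => ⟨0, cmb_zero' _, fun ν => ?_⟩, χ, hχ, fun τ => rfl⟩
    simp

private theorem AXD_slice (x : (N × Fin G.A.g) ⊕ NT → LL U)
    (hx : x ∈ Submodule.span (LL U) {v : (N × Fin G.A.g) ⊕ NT → LL U |
      ∃ s : Q → (N × Fin G.A.g) ⊕ NT → Qb, (∀ᶠ k in (U : Filter Q), s k ∈ AXD_S f k) ∧
        v = fun i => ger U (fun k => s k i)}) :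
    (∀ l, (fun ν => x (Sum.inl (ν, l))) ∈ RgA U f) ∧ (fun τ => x (Sum.inr τ)) ∈ RgT U f := by
  classical
  induction hx using Submodule.span_induction with
  | mem y hy =>
    obtain ⟨s, hs, rfl⟩ := hy
    constructor
    · intro l
      have h1 : ∀ k, ∃ m : N → ℤ, s k ∈ AXD_S f k → (cmb (f.P k) m = 0 ∧
          ∀ ν, s k (Sum.inl (ν, l)) = ((m ν : ℤ) : Qb)) := by
        intro k
        by_cases h : s k ∈ AXD_S f k
        · obtain ⟨m, hm⟩ := (AXD_S_int f k _ h).1 l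
          exact ⟨m, fun _ => hm⟩
        · exact ⟨0, fun h' => absurd h' h⟩
      choose m hm using h1
      refine Submodule.subset_span ⟨m, ?_, ?_⟩
      · filter_upwards [hs] with k hk
        exact (hm k hk).1
      · funext ν
        refine (ger_eq U).2 ?_
        filter_upwards [hs] with k hk
        exact (hm k hk).2 ν
    · have h1 : ∀ k, ∃ χ : NT → ℤ, s k ∈ AXD_S f k → (G.cd.cmbT (f.TP k) χ = 0 ∧
          ∀ τ, s k (Sum.inr τ) = ((χ τ : ℤ) : Qb)) := by
        intro k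
        by_cases h : s k ∈ AXD_S f k
        · obtain ⟨m, hm⟩ := (AXD_S_int f k _ h).2
          exact ⟨m, fun _ => hm⟩
        · exact ⟨0, fun h' => absurd h' h⟩
      choose χ hχ using h1
      refine Submodule.subset_span ⟨χ, ?_, ?_⟩
      · filter_upwards [hs] with k hk
        exact (hχ k hk).1
      · funext τ
        refine (ger_eq U).2 ?_
        filter_upwards [hs] with k hk
        exact (hχ k hk).2 τ
  | zero => exact ⟨fun l => Submodule.zero_mem _, Submodule.zero_mem _⟩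
  | add y z _ _ hy hz =>
    exact ⟨fun l => Submodule.add_mem _ (hy.1 l) (hz.1 l), Submodule.add_mem _ hy.2 hz.2⟩
  | smul a y _ hy =>
    exact ⟨fun l => Submodule.smul_mem _ a (hy.1 l), Submodule.smul_mem _ a hy.2⟩

/-! ### the limited vectors -/

private def AXD_j1 {L I J : Type} [Field L] : (I → L) →ₗ[L] (I ⊕ J → L) where
  toFun := fun v => Sum.elim v 0
  map_add' := by
    intro v w
    funext i
    cases i <;> simp
  map_smul' := by
    intro a v
    funext i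
    cases i <;> simp

private def AXD_j2 {L I J : Type} [Field L] : (J → L) →ₗ[L] (I ⊕ J → L) where
  toFun := fun v => Sum.elim 0 v
  map_add' := by
    intro v w
    funext i
    cases i <;> simp
  map_smul' := by
    intro a v
    funext i
    cases i <;> simp

private theorem AXD_split {L I J : Type} [Field L] (x : I ⊕ J → L) :
    x = AXD_j1 (fun i => x (Sum.inl i)) + AXD_j2 (fun j => x (Sum.inr j)) := by
  funext i
  cases i <;> simp [AXD_j1, AXD_j2]

private theorem AXD_hk (hK : St_KRN D) (B1 : Set (N → ℤ)) (hB1 : B1 = BA D U f)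
    (B2 : Set (NT → ℤ)) (hB2 : B2 = BT D U f)
    (V : Submodule Qb ((N × Fin G.A.g) ⊕ NT → Qb))
    (hV : ∀ (v : N × Fin G.A.g → Qb) (w : NT → Qb), Sum.elim v w ∈ V ↔
      v ∈ Submodule.span Qb {v : N × Fin G.A.g → Qb | ∃ m ∈ B1, ∃ l, v = tv (X := G.A) Qb m l} ⊔
        RelS O f.mo Qb ∧
      w ∈ Submodule.span Qb {v : NT → Qb | ∃ m ∈ B2, v = fun ν => ((m ν : ℤ) : Qb)})
    (x : (N × Fin G.A.g) ⊕ NT → LL U)
    (hx : x ∈ Submodule.span (LL U) {v : (N × Fin G.A.g) ⊕ NT → LL U |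
      ∃ s : Q → (N × Fin G.A.g) ⊕ NT → Qb, (∀ᶠ k in (U : Filter Q), s k ∈ AXD_S f k) ∧
        v = fun i => ger U (fun k => s k i)})
    (h0 : ∀ E : Derivation ℤ (LL U) (LL U), (∀ z ∈ F1 U D, E z = 0) →
      ∑ i, x i * AXD_th U f i E = 0) :
    x ∈ Submodule.span (LL U) {w | ∃ v ∈ V, w = fun i => gerC U (v i)} := by
  obtain ⟨h1, h2⟩ := AXD_slice U f x hx
  obtain ⟨h3, h4⟩ := hK G O F N NT Q U f (fun p => x (Sum.inl p)) (fun τ => x (Sum.inr τ)) h1 h2 (by
    intro E hE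
    have h5 := h0 E hE
    rw [Fintype.sum_sum_type] at h5
    exact h5)
  rw [AXD_split x]
  refine Submodule.add_mem _ ?_ ?_
  · have h5 := Submodule.mem_map_of_mem (f := AXD_j1 (L := LL U) (I := N × Fin G.A.g) (J := NT)) h4
    rw [Submodule.map_span] at h5
    refine Submodule.span_mono ?_ h5
    rintro _ ⟨_, ⟨α, l, hα, rfl⟩, rfl⟩
    refine ⟨Sum.elim (fun p => O.rho (α p.1) l p.2) 0, ?_, ?_⟩
    · rw [hV]
      exact ⟨AXD_rho D U f B1 hB1 α l hα, Submodule.zero_mem _⟩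
    · funext i
      cases i with
      | inl p => rfl
      | inr τ =>
        have h6 : gerC U (0 : Qb) = (0 : LL U) := map_zero (gerC U)
        exact h6.symm
  · have h5 := Submodule.mem_map_of_mem (f := AXD_j2 (L := LL U) (I := N × Fin G.A.g) (J := NT)) h3
    rw [Submodule.map_span] at h5
    refine Submodule.span_mono ?_ h5
    rintro _ ⟨_, ⟨χ, hχ, rfl⟩, rfl⟩
    refine ⟨Sum.elim 0 (fun τ => ((χ τ : ℤ) : Qb)), ?_, ?_⟩
    · rw [hV]
      refine ⟨Submodule.zero_mem _, Submodule.subset_span ⟨χ, ?_, rfl⟩⟩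
      rw [hB2]
      exact hχ
    · funext i
      cases i with
      | inl p =>
        have h6 : gerC U (0 : Qb) = (0 : LL U) := map_zero (gerC U)
        exact h6.symm
      | inr τ =>
        have h6 : gerC U ((χ τ : ℤ) : Qb) = ((χ τ : ℤ) : LL U) := map_intCast (gerC U) (χ τ)
        exact h6.symm

private theorem AXD_fin : (crdF U f).Finite := by
  refine Set.Finite.union ?_ ?_
  · have h : {z | ∃ ν a, z = (gpt U (fun k => f.P k ν)).v a} =
        Set.range fun p : N × Fin (G.A.n + 1) => (gpt U (fun k => f.P k p.1)).v p.2 := by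
      ext z
      constructor
      · rintro ⟨ν, a, rfl⟩
        exact ⟨(ν, a), rfl⟩
      · rintro ⟨p, rfl⟩
        exact ⟨p.1, p.2, rfl⟩
    rw [h]
    exact Set.finite_range _
  · have h : {z | ∃ τ, z = (((gmT U (fun k => f.TP k τ)).u : (LL U)ˣ) : LL U)} =
        Set.range fun τ : NT => (((gmT U (fun k => f.TP k τ)).u : (LL U)ˣ) : LL U) := by
      ext z
      constructor
      · rintro ⟨τ, rfl⟩
        exact ⟨τ, rfl⟩
      · rintro ⟨τ, rfl⟩
        exact ⟨τ, rfl⟩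
    rw [h]
    exact Set.finite_range _

end main

theorem thm_AXD (D : Derivation ℤ Qb Qb) (hAXL : St_AXL) (hCNT : CNTQ) (hCNS : CNSQ)
    (hPRD : St_PRD) (hFNA : St_FNA) (hFNT : St_FNT) (hBSG : St_BSG D) (hK : St_KRN D) :
    St_AXD D := by
  classical
  intro G O F hS N NT Q _ _ U f
  obtain ⟨⟨B1, hB1, hst⟩, B2, hB2⟩ := hBSG G O F N NT Q U f
  obtain ⟨V, hV, hV1, -⟩ := hPRD Qb (N × Fin G.A.g) NT ∅ ∅
    (Submodule.span Qb {v : N × Fin G.A.g → Qb | ∃ m ∈ B1, ∃ l, v = tv (X := G.A) Qb m l} ⊔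
      RelS O f.mo Qb)
    (Submodule.span Qb {v : NT → Qb | ∃ m ∈ B2, v = fun ν => ((m ν : ℤ) : Qb)})
  have h1 := hAXL Qb Q ((N × Fin G.A.g) ⊕ NT) U (F1 U D) (crdF U f) (AXD_fin U f) (AXD_th U f)
    (AXD_th_add U f hFNA hFNT) (AXD_th_smul U f hFNA hFNT) (AXD_th_zero D U f hFNA hFNT)
    (AXD_S f) V (AXD_hk D U f hK B1 hB1 B2 hB2 V hV)
  filter_upwards [h1] with k hk
  obtain ⟨V', hV', hV1', hV2'⟩ := hPRD Qb (N × Fin G.A.g) NT
    {v : N × Fin G.A.g → Qb | ∃ m ∈ relL (f.P k), ∃ l, v = tv (X := G.A) Qb m l}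
    {v : NT → Qb | ∃ m ∈ relT (f.TP k), v = fun ν => ((m ν : ℤ) : Qb)}
    (Submodule.span Qb {v : N × Fin G.A.g → Qb | ∃ m ∈ B1, ∃ l, v = tv (X := G.A) Qb m l} ⊔
      RelS O f.mo Qb)
    (Submodule.span Qb {v : NT → Qb | ∃ m ∈ B2, v = fun ν => ((m ν : ℤ) : Qb)})
  have hVV : V' = V := by
    ext v
    have h2 : v = Sum.elim (fun i => v (Sum.inl i)) (fun j => v (Sum.inr j)) := by
      funext i
      cases i <;> rfl
    rw [h2, hV, hV']
  subst hVV
  have h3 := hCNT G.A O hS N f.mo (relL (f.P k)) B1 (AXD_stab f k) hst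
  have h4 := hCNS NT (relT (f.TP k)) B2
  rw [← hB1, ← hB2]
  have h5 : finrank Qb (Submodule.span Qb (AXD_S f k) ⊔ V' :
      Submodule Qb ((N × Fin G.A.g) ⊕ NT → Qb)) = _ := hV2'
  have h6 : rkR (relT (f.TP k)) = finrank ℝ (rsp (relT (f.TP k) : Set (NT → ℤ))) := rfl
  rw [h5, hV1] at hk
  omega

end Pool.Agent.ZPCd
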