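import Pool.Agent.ZPCd.StX
import Pool.Agent.ZPS.AX.TE
import Pool.Agent.ZPS.AX.PT
import Pool.Agent.ZPA.AX.LGX
import Pool.Agent.ZPA.G.NFD

/-!
# ZPC part A: the groups of the limited combinations, the forms as functionals (helper43)
-/

set_option autoImplicit false

open scoped BigOperators
open Filter Topology Module

namespace Pool.Agent.ZPCd

open Pool.Agent.ZPC.UB Pool.Agent.ZPT Pool.Agent.ZPE Pool.Agent.ZPA Pool.Agent.ZPS Pool.Agent.ZPA.G Pool.Agent.ZPS.G

/-! ### the forms as functionals on the derivations -/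

theorem thm_FNA : St_FNA := by
  intro A K _ _ P l
  obtain ⟨g, -, hg⟩ := lgx_3 A K P l
  refine ⟨fun E E' => ?_, fun a E => ?_, fun E hE => ?_⟩
  · rw [hg, hg, hg, ← Finset.sum_add_distrib]
    refine Finset.sum_congr rfl fun b _ => ?_
    rw [Derivation.add_apply, mul_add]
  · rw [hg, hg, Finset.mul_sum]
    refine Finset.sum_congr rfl fun b _ => ?_
    rw [Derivation.smul_apply, smul_eq_mul, mul_left_comm]
  · rw [hg]
    exact Finset.sum_eq_zero fun b _ => by rw [hE, mul_zero]

theorem thm_FNT : St_FNT := by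
  intro G K _ _ x
  refine ⟨fun E E' => ?_, fun a E => ?_, fun E hE hb hu => ?_⟩
  · rw [etaT_eq, etaT_eq, etaT_eq, ← Finset.sum_add_distrib]
    refine Finset.sum_congr rfl fun s _ => ?_
    rw [Derivation.add_apply, mul_add]
  · rw [etaT_eq, etaT_eq, Finset.mul_sum]
    refine Finset.sum_congr rfl fun s _ => ?_
    rw [Derivation.smul_apply, smul_eq_mul, mul_left_comm]
  · refine etaT_const G E x fun s => ?_
    have h1 : zT G x s ∈ cns E :=
      zT_mem G (cns E) (fun c => hE c) x ⟨fun l a => hb l a, hu⟩ s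
    exact h1

/-! ### the groups of the limited combinations -/

section bsg

variable {G : SV} {O : OAct G.A} {F : G.cd.FD O} {N NT Q : Type} [Fintype N] [Fintype NT]
  (D : Derivation ℤ Qb Qb) (U : Ultrafilter Q) (f : Fm G O F N NT Q)

/-- the group of the limited combinations of the points -/
noncomputable def BAg : AddSubgroup (N → ℤ) where
  carrier := BA D U f
  zero_mem' := by
    have h := InF_cmb (F := F1 U D) (F1_const D U) (fun ν => gpt U (fun k => f.P k ν)) 0
      fun ν h => absurd rfl h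
    exact h
  add_mem' := by
    intro m m' h h'
    have h1 := (NFD_InF (F1 U D) (F1_const D U) _).1 h
    have h2 := (NFD_InF (F1 U D) (F1_const D U) _).1 h'
    have h3 := (NFD_InF (F1 U D) (F1_const D U) _).2 (AddSubgroup.add_mem _ h1 h2)
    rw [← cmb_add'] at h3
    exact h3
  neg_mem' := by
    intro m h
    have h1 := (NFD_InF (F1 U D) (F1_const D U) _).1 h
    have h3 := (NFD_InF (F1 U D) (F1_const D U) _).2 (AddSubgroup.neg_mem _ h1)
    rw [← cmb_neg'] at h3
    exact h3

theorem BAg_coe : (BAg D U f : Set (N → ℤ)) = BA D U f := rfl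

/-- the combinations of the germs and the action -/
theorem BA_act (α : O.O) (m : N → ℤ) :
    cmb (fun ν => gpt U (fun k => f.P k ν)) (f.mo α m) =
      O.act (LL U) α (cmb (fun ν => gpt U (fun k => f.P k ν)) m) := by
  rw [← ZPA.gpt_cmb, ← ZPA.gpt_cmb, ZPA.gpt_act]
  congr 1
  funext k
  exact f.act k α m

theorem BAg_stab : StabL O f.mo (BAg D U f) := by
  intro α m hm
  have h1 := InF_act O (F := F1 U D) (F1_const D U) α _ hm
  rw [← BA_act] at h1
  exact h1

/-- the group of the limited combinations of the T-elements -/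
noncomputable def BTg : AddSubgroup (NT → ℤ) where
  carrier := BT D U f
  zero_mem' := by
    refine ⟨1, one_pos, ?_⟩
    rw [← mem_CoTS G (F1 U D) (F1_const D U), cmbT_zero, smul_zero]
    exact AddSubgroup.zero_mem _
  add_mem' := by
    rintro χ χ' ⟨n, hn, h⟩ ⟨n', hn', h'⟩
    refine ⟨n * n', Nat.mul_pos hn hn', ?_⟩
    rw [← mem_CoTS G (F1 U D) (F1_const D U)] at h h' ⊢
    rw [cmbT_add, smul_add]
    refine AddSubgroup.add_mem _ ?_ ?_
    · rw [mul_comm, mul_smul]
      exact AddSubgroup.nsmul_mem _ h _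
    · rw [mul_smul]
      exact AddSubgroup.nsmul_mem _ h' _
  neg_mem' := by
    rintro χ ⟨n, hn, h⟩
    refine ⟨n, hn, ?_⟩
    rw [← mem_CoTS G (F1 U D) (F1_const D U)] at h ⊢
    rw [cmbT_neg, smul_neg]
    exact AddSubgroup.neg_mem _ h

theorem BTg_coe : (BTg D U f : Set (NT → ℤ)) = BT D U f := rfl

end bsg

theorem thm_BSG (D : Derivation ℤ Qb Qb) : St_BSG D := by
  intro G O F N NT Q _ _ U f
  exact ⟨⟨BAg D U f, rfl, BAg_stab D U f⟩, ⟨BTg D U f, rfl⟩⟩

end Pool.Agent.ZPCd
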