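import Pool.Agent.ZPCd.StX
import Pool.Agent.ZPA.G.GR1
import Pool.Agent.ZPA.AX.DIMF

/-!
# ZPC part A, module CNT: the vectors of a stable group modulo the vectors of another stable group
-/

set_option autoImplicit false

open scoped BigOperators
open Filter Topology Module

namespace Pool.Agent.ZPCd

open Pool.Agent.ZPC.UB Pool.Agent.ZPT Pool.Agent.ZPE Pool.Agent.ZPA Pool.Agent.ZPS Pool.Agent.ZPA.G
  Pool.Agent.ZPS.G

section cnt

variable {A : AV} {N : Type}

private theorem CNT_tv (m : N → ℤ) (l : Fin A.g) :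
    tv (X := A) ℂ m l = tv (X := A) ℂ (ca m) l := by
  funext p
  unfold tv ca
  split_ifs
  · simp
  · rfl

/-- the vectors of a set of integral vectors and of its real span -/
private theorem CNT_TS [Fintype N] (R : Set (N → ℤ)) :
    Submodule.span ℂ {v : N × Fin A.g → ℂ | ∃ m ∈ R, ∃ l, v = tv (X := A) ℂ m l} =
      TS (X := A) (rsp R) := by
  apply le_antisymm
  · refine Submodule.span_le.2 ?_
    rintro _ ⟨m, hm, l, rfl⟩
    rw [CNT_tv]
    exact Submodule.subset_span ⟨ca m, Submodule.subset_span ⟨m, hm, rfl⟩, l, rfl⟩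
  · refine Submodule.span_le.2 ?_
    rintro _ ⟨w, hw, l, rfl⟩
    rw [SetLike.mem_coe]
    unfold rsp at hw
    induction hw using Submodule.span_induction with
    | mem x hx =>
      obtain ⟨m, hm, rfl⟩ := hx
      rw [← CNT_tv]
      exact Submodule.subset_span ⟨m, hm, l, rfl⟩
    | zero =>
      have h1 : tv (X := A) ℂ (0 : N → ℝ) l = 0 := by
        funext p
        unfold tv
        split_ifs
        · simp
        · rfl
      rw [h1]
      exact Submodule.zero_mem _
    | add a b _ _ ha hb =>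
      rw [DIMF_tv_add]
      exact Submodule.add_mem _ ha hb
    | smul c a _ ha =>
      rw [DIMF_tv_smul]
      exact Submodule.smul_mem _ _ ha

private theorem CNT_sup [Fintype N] (W W' : Submodule ℝ (N → ℝ)) :
    TS (X := A) (W ⊔ W') = TS (X := A) W ⊔ TS (X := A) W' := by
  apply le_antisymm
  · refine Submodule.span_le.2 ?_
    rintro _ ⟨w, hw, l, rfl⟩
    obtain ⟨a, ha, b, hb, rfl⟩ := Submodule.mem_sup.1 hw
    rw [DIMF_tv_add]
    exact Submodule.add_mem_sup (Submodule.subset_span ⟨a, ha, l, rfl⟩)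
      (Submodule.subset_span ⟨b, hb, l, rfl⟩)
  · refine sup_le (Submodule.span_mono ?_) (Submodule.span_mono ?_)
    · rintro _ ⟨w, hw, l, rfl⟩
      exact ⟨w, Submodule.mem_sup_left hw, l, rfl⟩
    · rintro _ ⟨w, hw, l, rfl⟩
      exact ⟨w, Submodule.mem_sup_right hw, l, rfl⟩

end cnt

theorem thm_CNT : St_CNT := by
  intro A O hs N _ mo R B hR hB
  have e1 : Submodule.span ℂ {v : N × Fin A.g → ℂ | ∃ m ∈ R, ∃ l, v = tv (X := A) ℂ m l} =
      TS (X := A) (rsp (R : Set (N → ℤ))) := CNT_TS (R : Set (N → ℤ))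
  have e2 : Submodule.span ℂ {v : N × Fin A.g → ℂ | ∃ m ∈ B, ∃ l, v = tv (X := A) ℂ m l} =
      TS (X := A) (rsp (B : Set (N → ℤ))) := CNT_TS (B : Set (N → ℤ))
  have s1 : Stab O mo (rsp (R : Set (N → ℤ))) := (la_RSP A O N mo).1 R hR
  have s2 : Stab O mo (rsp (B : Set (N → ℤ))) := (la_RSP A O N mo).1 B hB
  have s3 : Stab O mo (rsp (R : Set (N → ℤ)) ⊔ rsp (B : Set (N → ℤ))) := by
    intro α w hw
    obtain ⟨a, ha, b, hb, rfl⟩ := Submodule.mem_sup.1 hw
    rw [map_add]
    exact Submodule.add_mem_sup (s1 α a ha) (s2 α b hb)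
  have d1 := thm_DIMF la_EXT A O hs N mo _ s2
  have d2 := thm_DIMF la_EXT A O hs N mo _ s3
  have d3 := la_MOD A O hs (N → ℝ) (mRh mo) _ _ s1 s2
  rw [CNT_sup, sup_assoc] at d2
  rw [← dF_eq, ← dF_eq, ← dF_eq, ← dF_eq] at d3
  rw [e1, e2]
  omega

end Pool.Agent.ZPCd
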