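import Pool.Agent.ZPCd.StX
import Pool.Agent.ZPA.G.GR1

/-!
# ZPC part A: the family of the limited combinations

helper62.
-/

set_option autoImplicit false
set_option linter.unusedSectionVars false

open scoped BigOperators
open Filter Topology Module

namespace Pool.Agent.ZPCd

open Pool.Agent.ZPC.UB Pool.Agent.ZPT Pool.Agent.ZPE Pool.Agent.ZPA Pool.Agent.ZPS Pool.Agent.ZPA.G Pool.Agent.ZPS.G

/-! ### lattices -/

section lin

variable {N N' : Type} [Fintype N] [Fintype N']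

theorem nw_inj (B : N' → N → ℤ) (hB : LinearIndependent ℤ B) :
    Function.Injective (rsp_JR B) := by
  have h1 := ca_ind B hB
  rw [Fintype.linearIndependent_iff] at h1
  rw [← LinearMap.ker_eq_bot, LinearMap.ker_eq_bot']
  intro w hw
  funext i
  exact h1 w hw i

theorem nw_injZ (B : N' → N → ℤ) (hB : LinearIndependent ℤ B) {m m' : N' → ℤ}
    (h : ∑ i, m i • B i = ∑ i, m' i • B i) : m = m' := by
  rw [Fintype.linearIndependent_iff] at hB
  have h1 : ∑ i, (m - m') i • B i = 0 := by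
    simp only [Pi.sub_apply, sub_smul, Finset.sum_sub_distrib]
    rw [h, sub_self]
  funext i
  have h2 := hB (m - m') h1 i
  rw [Pi.sub_apply] at h2
  omega

theorem nw_map (B : N' → N → ℤ) (L : AddSubgroup (N → ℤ)) (L' : AddSubgroup (N' → ℤ))
    (h : ∀ m : N' → ℤ, m ∈ L' ↔ ∑ i, m i • B i ∈ L)
    (h2 : ∀ m ∈ L, ∃ n : ℕ, 0 < n ∧ n • m ∈ AddSubgroup.closure (Set.range B)) :
    (rsp (L' : Set (N' → ℤ))).map (rsp_JR B) = rsp (L : Set (N → ℤ)) := by
  apply le_antisymm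
  · rw [Submodule.map_le_iff_le_comap]
    conv_lhs => unfold rsp
    rw [Submodule.span_le]
    rintro _ ⟨m, hm, rfl⟩
    show rsp_JR B (ca m) ∈ rsp (L : Set (N → ℤ))
    rw [rsp_JR_ca]
    exact Submodule.subset_span ⟨_, (h m).1 hm, rfl⟩
  · conv_lhs => unfold rsp
    rw [Submodule.span_le]
    rintro _ ⟨m, hm, rfl⟩
    obtain ⟨n, hn, hnm⟩ := h2 m hm
    rw [rsp_mem] at hnm
    obtain ⟨m', hm'⟩ := hnm
    have h3 : m' ∈ L' := by
      rw [h m']
      have : ∑ i, m' i • B i = n • m := hm'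
      rw [this]
      exact L.nsmul_mem hm n
    have h4 : rsp_JR B (ca m') = (n : ℝ) • ca m := by
      rw [rsp_JR_ca, hm']
      funext ν
      simp [ca]
    have hn' : (n : ℝ) ≠ 0 := by
      have : n ≠ 0 := hn.ne'
      exact_mod_cast this
    have h5 : ca m = (n : ℝ)⁻¹ • rsp_JR B (ca m') := by
      rw [h4, smul_smul, inv_mul_cancel₀ hn', one_smul]
    show ca m ∈ (rsp (L' : Set (N' → ℤ))).map (rsp_JR B)
    rw [h5]
    refine Submodule.smul_mem _ _ ?_
    exact Submodule.mem_map_of_mem (Submodule.subset_span ⟨m', h3, rfl⟩)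

theorem nw_rk (B : N' → N → ℤ) (hB : LinearIndependent ℤ B) (L : AddSubgroup (N → ℤ))
    (L' : AddSubgroup (N' → ℤ)) (h : ∀ m : N' → ℤ, m ∈ L' ↔ ∑ i, m i • B i ∈ L)
    (h2 : ∀ m ∈ L, ∃ n : ℕ, 0 < n ∧ n • m ∈ AddSubgroup.closure (Set.range B)) :
    rkR L' = rkR L := by
  unfold rkR
  rw [← nw_map B L L' h h2]
  exact ((rsp (L' : Set (N' → ℤ))).equivMapOfInjective (rsp_JR B) (nw_inj B hB)).finrank_eq

theorem nw_basis (L : AddSubgroup (N → ℤ)) : ∃ (n : ℕ) (B : Fin n → N → ℤ),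
    LinearIndependent ℤ B ∧ AddSubgroup.closure (Set.range B) = L := by
  obtain ⟨n, b⟩ := Submodule.basisOfPid (Pi.basisFun ℤ N) (AddSubgroup.toIntSubmodule L)
  have hind : LinearIndependent ℤ (fun i => ((b i : AddSubgroup.toIntSubmodule L) : N → ℤ)) :=
    b.linearIndependent.map' (AddSubgroup.toIntSubmodule L).subtype
      (Submodule.ker_subtype _)
  refine ⟨n, _, hind, le_antisymm ?_ ?_⟩
  · rw [AddSubgroup.closure_le]
    rintro _ ⟨i, rfl⟩
    exact (b i).2
  · intro m hm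
    have hm' : m ∈ AddSubgroup.toIntSubmodule L := hm
    have h1 := b.sum_repr (⟨m, hm'⟩ : AddSubgroup.toIntSubmodule L)
    have h2 := congrArg (AddSubgroup.toIntSubmodule L).subtype h1
    rw [map_sum] at h2
    have h3 : ∑ i, b.repr ⟨m, hm'⟩ i • ((b i : AddSubgroup.toIntSubmodule L) : N → ℤ) = m := h2
    rw [← h3]
    exact AddSubgroup.sum_mem _ fun i _ => AddSubgroup.zsmul_mem _
      (AddSubgroup.subset_closure (Set.mem_range_self i)) _

/-- a multiple of the elements of a group lies in a subgroup of multiples of the generators -/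
theorem nw_mul {n : ℕ} (C : Fin n → N → ℤ) (e : Fin n → ℕ) (he : ∀ j, 0 < e j) (m : N → ℤ)
    (hm : m ∈ AddSubgroup.closure (Set.range C)) :
    ∃ k : ℕ, 0 < k ∧ k • m ∈ AddSubgroup.closure (Set.range fun j => e j • C j) := by
  refine ⟨∏ j, e j, Finset.prod_pos fun j _ => he j, ?_⟩
  induction hm using AddSubgroup.closure_induction with
  | mem x hx =>
    obtain ⟨j, rfl⟩ := hx
    have h1 : (∏ i, e i) = (∏ i ∈ Finset.univ.erase j, e i) * e j :=
      (Finset.prod_erase_mul _ _ (Finset.mem_univ j)).symm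
    rw [h1, mul_smul]
    exact AddSubgroup.nsmul_mem _
      (AddSubgroup.subset_closure (Set.mem_range_self (f := fun j => e j • C j) j)) _
  | zero =>
    rw [smul_zero]
    exact AddSubgroup.zero_mem _
  | add x y _ _ hx hy =>
    rw [smul_add]
    exact AddSubgroup.add_mem _ hx hy
  | neg x _ hx =>
    rw [smul_neg]
    exact AddSubgroup.neg_mem _ hx

theorem nw_ind {n : ℕ} (C : Fin n → N → ℤ) (hC : LinearIndependent ℤ C) (e : Fin n → ℕ)
    (he : ∀ j, 0 < e j) : LinearIndependent ℤ fun j => e j • C j := by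
  rw [Fintype.linearIndependent_iff] at hC ⊢
  intro g hg j
  have h1 : ∑ i, (g i * (e i : ℤ)) • C i = 0 := by
    rw [← hg]
    refine Finset.sum_congr rfl fun i _ => ?_
    rw [mul_smul, natCast_zsmul]
  have h2 := hC _ h1 j
  have h3 : (e j : ℤ) ≠ 0 := by
    have := he j
    omega
  exact (mul_eq_zero.1 h2).resolve_right h3

end lin

/-! ### combinations -/

section cmb

theorem nw_cmb {X : AV} {K : Type} [Field K] [Algebra Qb K] {N N' : Type}
    [Fintype N] [Fintype N'] (g : N → X.toAVD.Pt K) (B : N' → N → ℤ) (m : N' → ℤ) :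
    cmb (fun i => cmb g (B i)) m = cmb g (∑ i, m i • B i) := by
  have h1 : cmb g (∑ i, m i • B i) =
      (AddMonoidHom.mk' (fun m => cmb g m) (cmb_add' g)) (∑ i, m i • B i) := rfl
  rw [h1, map_sum]
  unfold Pool.Agent.ZPA.cmb
  refine Finset.sum_congr rfl fun i _ => ?_
  rw [map_zsmul]
  rfl

variable {G : SV} {K : Type} [Field K] [Algebra Qb K]

theorem nw_cmbT {N N' : Type} [Fintype N] [Fintype N'] (g : N → G.cd.T K) (B : N' → N → ℤ)
    (m : N' → ℤ) : G.cd.cmbT (fun i => G.cd.cmbT g (B i)) m = G.cd.cmbT g (∑ i, m i • B i) := by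
  have h1 : G.cd.cmbT g (∑ i, m i • B i) =
      (AddMonoidHom.mk' (fun m => G.cd.cmbT g m) (cmbT_add g)) (∑ i, m i • B i) := rfl
  rw [h1, map_sum]
  unfold CD.cmbT
  refine Finset.sum_congr rfl fun i _ => ?_
  rw [map_zsmul]
  rfl

theorem nw_cmbT_nsmul {N : Type} [Fintype N] (g : N → G.cd.T K) (n : ℕ) (m : N → ℤ) :
    G.cd.cmbT g (n • m) = n • G.cd.cmbT g m :=
  map_nsmul (AddMonoidHom.mk' (fun m => G.cd.cmbT g m) (cmbT_add g)) n m

theorem nw_cmbT_b {N : Type} [Fintype N] (g : N → G.cd.T K) (m : N → ℤ) (l : G.cd.L) :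
    (G.cd.cmbT g m).b l = cmb (fun ν => (g ν).b l) m := by
  have h1 : (G.cd.cmbT g m).b = ∑ ν, m ν • (g ν).b := by
    have h2 : (G.cd.cmbT g m).b = (Ext.pr : G.cd.T K →+ _) (∑ ν, m ν • g ν) := rfl
    rw [h2, map_sum]
    exact Finset.sum_congr rfl fun ν _ => map_zsmul _ _ _
  rw [h1, Finset.sum_apply]
  rfl

/-- combinations of T-elements over a subfield -/
theorem nw_cot {N : Type} [Fintype N] (L : Subfield K)
    (hL : ∀ c : Qb, algebraMap Qb K c ∈ L) (x : N → G.cd.T K) (m : N → ℤ)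
    (h : ∀ ν, CoT G L (x ν)) : CoT G L (G.cd.cmbT x m) := by
  let aL : Algebra Qb L := ((algebraMap Qb K).codRestrict L hL).toAlgebra
  let j : L →ₐ[Qb] K := { toRingHom := L.subtype
                          commutes' := fun c => rfl }
  have h0 : ∀ y : G.cd.T K, y ∈ (G.cd.mapT j).range ↔ CoT G L y := by
    intro y
    constructor
    · rintro ⟨t, rfl⟩
      exact ⟨fun l a => ((t.b l).v a).2, ((t.u : Lˣ) : L).2⟩
    · rintro ⟨h1, h2⟩
      have h3 : ∀ l, ∃ R : G.A.toAVD.Pt L, mapPt j R = y.b l := fun l =>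
        exists_mapPt j (y.b l) fun a => ⟨⟨_, h1 l a⟩, rfl⟩
      choose R hR using h3
      have h4 : (⟨((y.u : Kˣ) : K), h2⟩ : L) ≠ 0 := by
        intro h5
        exact y.u.ne_zero (congrArg (fun z : L => (z : K)) h5)
      refine ⟨⟨R, Units.mk0 ⟨((y.u : Kˣ) : K), h2⟩ h4⟩, ?_⟩
      apply Ext.ext
      · funext l
        exact hR l
      · apply Units.ext
        rfl
  rw [← h0]
  exact AddSubgroup.sum_mem _ fun ν _ => AddSubgroup.zsmul_mem _ ((h0 _).2 (h ν)) _

end cmb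

theorem thm_NEW (D : Derivation ℤ Qb Qb) (hB : St_BSG D) : St_NEW D := by
  classical
  intro G O F hS N NT Q _ _ U f
  obtain ⟨⟨B, hBA, hBst⟩, B', hBT⟩ := hB G O F N NT Q U f
  obtain ⟨r, Bv, mo', hBi, hBc, hBo⟩ := exists_basisL f.mo B hBst
  obtain ⟨s, C, hCi, hCc⟩ := nw_basis B'
  have hab : ∀ c : Qb, algebraMap Qb (LL U) c ∈ F1 U D := fun c => F1_const D U c
  -- the multipliers
  have hCm : ∀ j, ∃ n : ℕ, 0 < n ∧ CoT G (F1 U D)
      (n • G.cd.cmbT (fun τ => gmT U (fun k => f.TP k τ)) (C j)) := by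
    intro j
    have h1 : C j ∈ (B' : Set (NT → ℤ)) := by
      rw [← hCc]
      exact AddSubgroup.subset_closure ⟨j, rfl⟩
    rw [hBT] at h1
    exact h1
  choose e he hCoT using hCm
  obtain ⟨C', hC'⟩ : ∃ C' : Fin s → NT → ℤ, C' = fun j => e j • C j := ⟨_, rfl⟩
  have hC'i : LinearIndependent ℤ C' := by
    rw [hC']
    exact nw_ind C hCi e he
  have hC'm : ∀ m ∈ B', ∃ k : ℕ, 0 < k ∧ k • m ∈ AddSubgroup.closure (Set.range C') := by
    intro m hm
    rw [hC']
    exact nw_mul C e he m (by rw [hCc]; exact hm)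
  have hC'B : ∀ m : Fin s → ℤ, ∑ i, m i • C' i ∈ B' := by
    intro m
    refine AddSubgroup.sum_mem _ fun i _ => AddSubgroup.zsmul_mem _ ?_ _
    rw [hC']
    refine AddSubgroup.nsmul_mem _ ?_ _
    rw [← hCc]
    exact AddSubgroup.subset_closure ⟨i, rfl⟩
  have hBB : ∀ m : Fin r → ℤ, ∑ i, m i • Bv i ∈ B := by
    intro m
    refine AddSubgroup.sum_mem _ fun i _ => AddSubgroup.zsmul_mem _ ?_ _
    rw [← hBc]
    exact AddSubgroup.subset_closure ⟨i, rfl⟩
  have hCo' : ∀ j, CoT G (F1 U D)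
      (G.cd.cmbT (fun τ => gmT U (fun k => f.TP k τ)) (C' j)) := by
    intro j
    rw [hC']
    show CoT G (F1 U D) (G.cd.cmbT (fun τ => gmT U (fun k => f.TP k τ)) (e j • C j))
    rw [nw_cmbT_nsmul]
    exact hCoT j
  -- the classes
  have hcl : ∀ l j, ∃ c : Fin r → ℤ, ∑ i, c i • Bv i = ∑ τ, C' j τ • f.c l τ := by
    intro l j
    have h1 : ∑ τ, C' j τ • f.c l τ ∈ (B : Set (N → ℤ)) := by
      rw [hBA]
      intro a
      have h2 : (G.cd.cmbT (fun τ => gmT U (fun k => f.TP k τ)) (C' j)).b l =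
          cmb (fun ν => gpt U (fun k => f.P k ν)) (∑ τ, C' j τ • f.c l τ) := by
        rw [nw_cmbT_b, ← nw_cmb]
        congr 1
        funext τ
        rw [gmT_b]
        have h3 : (fun k => (f.TP k τ).b l) = fun k => cmb (f.P k) (f.c l τ) :=
          funext fun k => f.base k τ l
        rw [h3, ZPA.gpt_cmb]
      rw [← h2]
      exact (hCo' j).1 l a
    have h3 : ∑ τ, C' j τ • f.c l τ ∈ AddSubgroup.closure (Set.range Bv) := by
      rw [hBc]
      exact h1
    rw [rsp_mem] at h3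
    obtain ⟨c, hc⟩ := h3
    exact ⟨c, hc⟩
  choose c hc using hcl
  obtain ⟨f', hmo, hP, hTP⟩ : ∃ f' : Fm G O F (Fin r) (Fin s) Q, f'.mo = mo' ∧
      (f'.P = fun k i => cmb (f.P k) (Bv i)) ∧
      (f'.TP = fun k j => G.cd.cmbT (f.TP k) (C' j)) := by
    refine ⟨{
      mo := mo'
      P := fun k i => cmb (f.P k) (Bv i)
      act := ?_
      TP := fun k j => G.cd.cmbT (f.TP k) (C' j)
      c := c
      base := ?_
      fim := ?_ }, rfl, rfl, rfl⟩
    · intro k α m
      rw [nw_cmb, nw_cmb, hBo, f.act]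
    · intro k j l
      rw [nw_cmbT_b, nw_cmb, hc, ← nw_cmb]
      congr 1
      funext τ
      exact f.base k τ l
    · intro τ j
      apply nw_injZ Bv hBi
      have h1 : ∑ i, (∑ l, mo' (F.f j l) (c l τ)) i • Bv i =
          ∑ l, f.mo (F.f j l) (∑ τ', C' τ τ' • f.c l τ') := by
        simp only [Finset.sum_apply, Finset.sum_smul]
        rw [Finset.sum_comm]
        refine Finset.sum_congr rfl fun l _ => ?_
        rw [hBo, hc]
      have h2 : ∑ i, (F.n • c j τ) i • Bv i = F.n • ∑ τ', C' τ τ' • f.c j τ' := by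
        rw [← hc, Finset.smul_sum]
        refine Finset.sum_congr rfl fun i _ => ?_
        rw [Pi.smul_apply, smul_assoc]
      rw [h1, h2]
      have h3 : ∀ l, f.mo (F.f j l) (∑ τ', C' τ τ' • f.c l τ') =
          ∑ τ', C' τ τ' • f.mo (F.f j l) (f.c l τ') := by
        intro l
        rw [map_sum]
        exact Finset.sum_congr rfl fun τ' _ => map_zsmul _ _ _
      simp only [h3]
      rw [Finset.sum_comm, Finset.smul_sum]
      refine Finset.sum_congr rfl fun τ' _ => ?_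
      rw [← Finset.smul_sum, f.fim τ' j, smul_comm]
  have hPk : ∀ k (m : Fin r → ℤ), cmb (f'.P k) m = cmb (f.P k) (∑ i, m i • Bv i) := by
    intro k m
    rw [hP]
    exact nw_cmb _ _ _
  have hTk : ∀ k (m : Fin s → ℤ), G.cd.cmbT (f'.TP k) m =
      G.cd.cmbT (f.TP k) (∑ i, m i • C' i) := by
    intro k m
    rw [hTP]
    exact nw_cmbT _ _ _
  have hz : CoT G (F1 U D) (0 : G.cd.T (LL U)) := by
    have h1 := nw_cot (G := G) (N := Fin 0) (F1 U D) hab (fun i => i.elim0) 0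
      (fun i => i.elim0)
    rwa [cmbT_zero] at h1
  have hevB : ∀ m ∈ evL U f.P, m ∈ B := by
    intro m hm
    have h1 : m ∈ (B : Set (N → ℤ)) := by
      rw [hBA]
      intro a
      rw [← ZPA.gpt_cmb]
      have h2 : ZPA.gpt U (fun k => cmb (f.P k) m) =
          ZPA.gpt U (fun _ => (0 : G.A.toAVD.Pt Qb)) := (ZPA.gpt_eq_iff U _ _).2 hm
      rw [h2, ZPA.gpt_zero]
      have h3 := InF_cmb (X := G.A) (F := F1 U D) hab (N := Fin 0) (fun i => i.elim0) 0
        (fun i => i.elim0)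
      rw [cmb_zero'] at h3
      exact h3 a
    exact h1
  have hevT : ∀ m ∈ evT U f.TP, m ∈ B' := by
    intro m hm
    have h1 : m ∈ (B' : Set (NT → ℤ)) := by
      rw [hBT]
      refine ⟨1, Nat.one_pos, ?_⟩
      rw [one_smul, ← gmT_cmb]
      have h2 : gmT U (fun k => G.cd.cmbT (f.TP k) m) = gmT U (fun _ => 0) :=
        (gmT_eq_iff U _ _).2 hm
      have h3 : gmT U (fun _ => (0 : G.cd.T Qb)) = 0 := map_zero (gmTH U)
      rw [h2, h3]
      exact hz
    exact h1
  have hcl' : ∀ m ∈ B, ∃ n : ℕ, 0 < n ∧ n • m ∈ AddSubgroup.closure (Set.range Bv) := by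
    intro m hm
    refine ⟨1, Nat.one_pos, ?_⟩
    rw [one_smul, hBc]
    exact hm
  refine ⟨r, s, f', ⟨?_, ?_⟩, ?_, ?_, ?_, ?_, ?_⟩
  · intro ν a
    rw [hP]
    show (gpt U (fun k => cmb (f.P k) (Bv ν))).v a ∈ F1 U D
    rw [ZPA.gpt_cmb]
    have h1 : Bv ν ∈ (B : Set (N → ℤ)) := by
      rw [← hBc]
      exact AddSubgroup.subset_closure ⟨ν, rfl⟩
    rw [hBA] at h1
    exact h1 a
  · intro τ
    rw [hTP]
    show CoT G (F1 U D) (gmT U (fun k => G.cd.cmbT (f.TP k) (C' τ)))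
    rw [gmT_cmb]
    exact hCo' τ
  · intro k
    rw [hmo, ← hBA, rsp_inf]
    refine (TRS f.mo mo' Bv hBi hBo (relL (f.P k) ⊓ B) (relL (f'.P k)) (fun m => ?_)
      (fun m hm => hcl' m hm.2)).1.symm
    constructor
    · intro hm
      refine ⟨?_, hBB m⟩
      show cmb (f.P k) (∑ i, m i • Bv i) = 0
      rw [← hPk]
      exact hm
    · rintro ⟨hm, -⟩
      show cmb (f'.P k) m = 0
      rw [hPk]
      exact hm
  · intro k
    rw [← hBT, rsp_inf]
    refine (nw_rk C' hC'i (relT (f.TP k) ⊓ B') (relT (f'.TP k)) (fun m => ?_)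
      (fun m hm => hC'm m hm.2)).symm
    constructor
    · intro hm
      refine ⟨?_, hC'B m⟩
      show G.cd.cmbT (f.TP k) (∑ i, m i • C' i) = 0
      rw [← hTk]
      exact hm
    · rintro ⟨hm, -⟩
      show G.cd.cmbT (f'.TP k) m = 0
      rw [hTk]
      exact hm
  · rw [hmo]
    refine le_of_eq (TRS f.mo mo' Bv hBi hBo (evL U f.P) (evL U f'.P) (fun m => ?_)
      (fun m hm => hcl' m (hevB m hm))).1
    constructor
    · intro hm
      show ∀ᶠ k in (U : Filter Q), cmb (f.P k) (∑ i, m i • Bv i) = 0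
      have h1 : ∀ᶠ k in (U : Filter Q), cmb (f'.P k) m = 0 := hm
      filter_upwards [h1] with k hk
      rw [← hPk]
      exact hk
    · intro hm
      show ∀ᶠ k in (U : Filter Q), cmb (f'.P k) m = 0
      have h1 : ∀ᶠ k in (U : Filter Q), cmb (f.P k) (∑ i, m i • Bv i) = 0 := hm
      filter_upwards [h1] with k hk
      rw [hPk]
      exact hk
  · refine le_of_eq (nw_rk C' hC'i (evT U f.TP) (evT U f'.TP) (fun m => ?_)
      (fun m hm => hC'm m (hevT m hm)))
    constructor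
    · intro hm
      show ∀ᶠ k in (U : Filter Q), G.cd.cmbT (f.TP k) (∑ i, m i • C' i) = 0
      have h1 : ∀ᶠ k in (U : Filter Q), G.cd.cmbT (f'.TP k) m = 0 := hm
      filter_upwards [h1] with k hk
      rw [← hTk]
      exact hk
    · intro hm
      show ∀ᶠ k in (U : Filter Q), G.cd.cmbT (f'.TP k) m = 0
      have h1 : ∀ᶠ k in (U : Filter Q), G.cd.cmbT (f.TP k) (∑ i, m i • C' i) = 0 := hm
      filter_upwards [h1] with k hk
      rw [hTk]
      exact hk
  · obtain ⟨Y, hY⟩ : ∃ Y : Subfield (LL U), Y =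
        Subfield.closure (Set.range (algebraMap Qb (LL U)) ∪ crdF U f) := ⟨_, rfl⟩
    have hYc : ∀ c : Qb, algebraMap Qb (LL U) c ∈ Y := by
      intro c
      rw [hY]
      exact Subfield.subset_closure (Or.inl ⟨c, rfl⟩)
    have hYP : ∀ ν, InF Y (gpt U (fun k => f.P k ν)) := by
      intro ν a
      rw [hY]
      exact Subfield.subset_closure (Or.inr (Or.inl ⟨ν, a, rfl⟩))
    have hYT : ∀ τ, CoT G Y (gmT U (fun k => f.TP k τ)) := by
      intro τ
      refine ⟨fun l a => ?_, ?_⟩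
      · rw [gmT_b]
        have h3 : (fun k => (f.TP k τ).b l) = fun k => cmb (f.P k) (f.c l τ) :=
          funext fun k => f.base k τ l
        rw [h3, ZPA.gpt_cmb]
        exact InF_cmb hYc _ _ (fun ν _ => hYP ν) a
      · rw [hY]
        exact Subfield.subset_closure (Or.inr (Or.inr ⟨τ, rfl⟩))
    rw [← hY]
    rintro y (⟨ν, a, rfl⟩ | ⟨τ, rfl⟩)
    · have h1 : (gpt U (fun k => f'.P k ν)).v a ∈ Y := by
        rw [hP]
        show (gpt U (fun k => cmb (f.P k) (Bv ν))).v a ∈ Y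
        rw [ZPA.gpt_cmb]
        exact InF_cmb hYc _ _ (fun ν _ => hYP ν) a
      exact isAlgebraic_algebraMap (⟨_, h1⟩ : Y)
    · have h1 : (((gmT U (fun k => f'.TP k τ)).u : (LL U)ˣ) : LL U) ∈ Y := by
        rw [hTP]
        show (((gmT U (fun k => G.cd.cmbT (f.TP k) (C' τ))).u : (LL U)ˣ) : LL U) ∈ Y
        rw [gmT_cmb]
        exact (nw_cot Y hYc _ _ hYT).2
      exact isAlgebraic_algebraMap (⟨_, h1⟩ : Y)

end Pool.Agent.ZPCd
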