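import Pool.Agent.ZPCd.StX

/-!
# ZPC part A: the reduction to limited families
-/

set_option autoImplicit false

open scoped BigOperators
open Filter Topology Module

namespace Pool.Agent.ZPCd

open Pool.Agent.ZPC.UB Pool.Agent.ZPT Pool.Agent.ZPE Pool.Agent.ZPA Pool.Agent.ZPS Pool.Agent.ZPA.G Pool.Agent.ZPS.G

theorem crdF_finite {G : SV} {O : OAct G.A} {F : G.cd.FD O} {N NT Q : Type} [Fintype N]
    [Fintype NT] (U : Ultrafilter Q) (f : Fm G O F N NT Q) : (crdF U f).Finite := by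
  refine Set.Finite.union ?_ ?_
  · have h : {z | ∃ ν a, z = (gpt U (fun k => f.P k ν)).v a} =
        Set.range fun p : N × Fin (G.A.n + 1) => (gpt U (fun k => f.P k p.1)).v p.2 := by
      ext z
      constructor
      · rintro ⟨ν, a, rfl⟩
        exact ⟨(ν, a), rfl⟩
      · rintro ⟨p, rfl⟩
        exact ⟨p.1, p.2, rfl⟩
    rw [h]
    exact Set.finite_range _
  · have h : {z | ∃ τ, z = (((gmT U (fun k => f.TP k τ)).u : (LL U)ˣ) : LL U)} =
        Set.range fun τ : NT => (((gmT U (fun k => f.TP k τ)).u : (LL U)ˣ) : LL U) := by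
      ext z
      constructor
      · rintro ⟨τ, rfl⟩
        exact ⟨τ, rfl⟩
      · rintro ⟨τ, rfl⟩
        exact ⟨τ, rfl⟩
    rw [h]
    exact Set.finite_range _

theorem thm_RED (D : Derivation ℤ Qb Qb) (hALT : St_ALT) (hNEW : St_NEW D) (hAXD : St_AXD D)
    (hTRA : St_TRA) : St_RED D := by
  intro hL G O F hS N NT Q _ _ U tau htau f d hd
  obtain ⟨r, s, f', hlim, h1, h2, h3, h4, h5⟩ := hNEW G O F hS N NT Q U f
  have hsub : crdF U f' ⊆ (F1 U D : Set (LL U)) := by
    rintro z (⟨ν, a, rfl⟩ | ⟨τ, rfl⟩)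
    · exact hlim.1 ν a
    · exact (hlim.2 τ).2
  have hX : Set.range (algebraMap Qb (LL U)) ⊆ (F1 U D : Set (LL U)) := by
    rintro _ ⟨c, rfl⟩
    exact F1_const D U c
  have h6 := hTRA (LL U) (F1 U D) (Set.range (algebraMap Qb (LL U))) (crdF U f') (crdF U f) hX hsub
    (crdF_finite U f') (crdF_finite U f) h5
  have h7 := (hALT G O F N NT Q U f d).1 hd
  have h8 : AlgF U f'.P f'.TP (d - trd (F1 U D : Set (LL U)) (crdF U f)) :=
    (hALT G O F (Fin r) (Fin s) Q U f' _).2 (by omega)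
  have h9 := hL G O F hS (Fin r) (Fin s) Q U tau htau f' _ hlim h8
  have h10 := hAXD G O F hS N NT Q U f
  filter_upwards [h9, h10] with k k1 k2
  have e1 := h1 k
  have e2 := h2 k
  omega

end Pool.Agent.ZPCd
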