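import Pool.Agent.ZPC.StA2
import Pool.Agent.ZPC.StA3
import Pool.Agent.ZPS.G.Defs
import Pool.Agent.ZPS.AX.StT
import Pool.Agent.ZPS.C.TGm

/-!
# ZPC part A: the bound for the unbounded part and the reduction to limited families.  Statements
(helper27)

The base field is `ℂ`, with a derivation `D`.  `L = LL U` is the ultrapower.
-/

set_option autoImplicit false

open scoped BigOperators
open Filter Topology Module

namespace Pool.Agent.ZPCd

open Pool.Agent.ZPC.UB Pool.Agent.ZPT Pool.Agent.ZPE Pool.Agent.ZPA Pool.Agent.ZPS Pool.Agent.ZPA.G Pool.Agent.ZPS.G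

/-! ### the central statements -/

/-- The bound for the number of relations of families of points and T-elements. -/
def SPKs : Prop :=
  ∀ (G : SV) (O : OAct G.A) (F : G.cd.FD O), SEMA O → ∀ (N NT Q : Type) [Fintype N] [Fintype NT]
    (U : Ultrafilter Q) (tau : Q → ℝ), Tendsto tau U atTop → ∀ (f : Fm G O F N NT Q) (d : ℕ),
    AlgF U f.P f.TP d → ∀ᶠ k in (U : Filter Q),
      dF O f.mo (rsp (relL (f.P k) : Set (N → ℤ))) + rkR (relT (f.TP k)) ≤
        d + (dF O f.mo (rsp (evL U f.P : Set (N → ℤ))) + rkR (evT U f.TP))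

/-- The family is limited: the coordinates of the germs lie in `F1`. -/
def LimF (D : Derivation ℤ Qb Qb) {G : SV} {O : OAct G.A} {F : G.cd.FD O} {N NT Q : Type}
    [Fintype N] [Fintype NT] (U : Ultrafilter Q) (f : Fm G O F N NT Q) : Prop :=
  (∀ ν a, (gpt U (fun k => f.P k ν)).v a ∈ F1 U D) ∧
    ∀ τ, CoT G (F1 U D) (gmT U (fun k => f.TP k τ))

/-- The bound for limited families. -/
def SPKL (D : Derivation ℤ Qb Qb) : Prop :=
  ∀ (G : SV) (O : OAct G.A) (F : G.cd.FD O), SEMA O → ∀ (N NT Q : Type) [Fintype N] [Fintype NT]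
    (U : Ultrafilter Q) (tau : Q → ℝ), Tendsto tau U atTop → ∀ (f : Fm G O F N NT Q) (d : ℕ),
    LimF D U f → AlgF U f.P f.TP d → ∀ᶠ k in (U : Filter Q),
      dF O f.mo (rsp (relL (f.P k) : Set (N → ℤ))) + rkR (relT (f.TP k)) ≤
        d + (dF O f.mo (rsp (evL U f.P : Set (N → ℤ))) + rkR (evT U f.TP))

/-! ### the export of the block MAN -/

/-- [PFA] The Picard-Fuchs system with the Manin characters for an abelian variety. -/
def St_PFA (D : Derivation ℤ Qb Qb) : Prop :=
  ∀ A : AV, ∃ (M : ℕ) (a : Fin M → Fin A.g → Fin A.g → Qb) (mu : Fin A.g → A.toAVD.Pt Qb →+ Qb),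
    0 < M ∧ ∀ (Q : Type) (U : Ultrafilter Q) (P : Q → A.toAVD.Pt Qb) (j : Fin A.g)
      (E : Derivation ℤ (LL U) (LL U)), (∀ c : Qb, E (gerC U c) = 0) →
      (Ld (gerD U D))^[M] (fun E => lgA A E (gpt U P) j) E =
        ∑ i, ∑ l, gerC U (a i l j) *
          (Ld (gerD U D))^[(i : ℕ)] (fun E => lgA A E (gpt U P) l) E +
        E (ger U (fun k => mu j (P k)))

/-- the invariant forms of the group of the T-elements -/
noncomputable def tF (G : SV) {K : Type} [Field K] [Algebra Qb K] (x : G.cd.T K) :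
    Option (G.cd.L × Fin G.A.g) → Derivation ℤ K K → K
  | none => fun E => etaT G E x
  | some p => fun E => lgA G.A E (x.b p.1) p.2

/-- [PFT] The Picard-Fuchs system with the Manin characters for the group of the T-elements. -/
def St_PFT (D : Derivation ℤ Qb Qb) : Prop :=
  ∀ G : SV, ∃ (M : ℕ) (a : Fin M → Option (G.cd.L × Fin G.A.g) →
      Option (G.cd.L × Fin G.A.g) → Qb) (mu : Option (G.cd.L × Fin G.A.g) → G.cd.T Qb →+ Qb),
    0 < M ∧ ∀ (Q : Type) (U : Ultrafilter Q) (x : Q → G.cd.T Qb)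
      (j : Option (G.cd.L × Fin G.A.g)) (E : Derivation ℤ (LL U) (LL U)),
      (∀ c : Qb, E (gerC U c) = 0) →
      (Ld (gerD U D))^[M] (tF G (gmT U x) j) E =
        ∑ i, ∑ l, gerC U (a i l j) * (Ld (gerD U D))^[(i : ℕ)] (tF G (gmT U x) l) E +
        E (ger U (fun k => mu j (x k)))

/-! ### limited combinations -/

theorem mem_acF {L : Type} [Field L] (F : Subfield L) {z : L} (hz : z ∈ F) : z ∈ acF F :=
  isAlgebraic_algebraMap (⟨z, hz⟩ : F)

theorem CF_le_F1 {K Q : Type} [Field K] (U : Ultrafilter Q) (D : Derivation ℤ K K) :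
    CF (gerD U D) (gerC U).fieldRange ≤ F1 U D := fun _ hz => mem_acF _ hz

/-- the constants lie in `F1` -/
theorem F1_const (D : Derivation ℤ Qb Qb) {Q : Type} (U : Ultrafilter Q) (c : Qb) :
    algebraMap Qb (LL U) c ∈ F1 U D := by
  have h1 : gerC U c ∈ CF (gerD U D) (gerC U).fieldRange :=
    (le_sup_right : (gerC U).fieldRange ≤ cns (gerD U D) ⊔ (gerC U).fieldRange)
      (RingHom.mem_fieldRange.2 ⟨c, rfl⟩)
  exact CF_le_F1 U D h1

section lim

variable {G : SV} {O : OAct G.A} {F : G.cd.FD O} {N NT Q : Type} [Fintype N] [Fintype NT]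
  (D : Derivation ℤ Qb Qb) (U : Ultrafilter Q) (f : Fm G O F N NT Q)

/-- the space of the internal relations of the points -/
noncomputable def RgA : Submodule (LL U) (N → LL U) :=
  Submodule.span (LL U) {v | ∃ m : Q → N → ℤ, (∀ᶠ k in (U : Filter Q), cmb (f.P k) (m k) = 0) ∧
    v = fun ν => ger U (fun k => ((m k ν : ℤ) : Qb))}

/-- the space of the internal relations of the T-elements -/
noncomputable def RgT : Submodule (LL U) (NT → LL U) :=
  Submodule.span (LL U) {v | ∃ χ : Q → NT → ℤ,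
    (∀ᶠ k in (U : Filter Q), G.cd.cmbT (f.TP k) (χ k) = 0) ∧
    v = fun τ => ger U (fun k => ((χ k τ : ℤ) : Qb))}

/-- the combinations of the points whose germ has coordinates in `F1` -/
def BA : Set (N → ℤ) :=
  {m | ∀ a, (cmb (fun ν => gpt U (fun k => f.P k ν)) m).v a ∈ F1 U D}

/-- the combinations of the T-elements which have a multiple whose germ has coordinates in `F1` -/
def BT : Set (NT → ℤ) :=
  {χ | ∃ n : ℕ, 0 < n ∧
    CoT G (F1 U D) (n • G.cd.cmbT (fun τ => gmT U (fun k => f.TP k τ)) χ)}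

/-- the coordinates of the germs of the family -/
def crdF : Set (LL U) :=
  {z | ∃ ν a, z = (gpt U (fun k => f.P k ν)).v a} ∪
    {z | ∃ τ, z = (((gmT U (fun k => f.TP k τ)).u : (LL U)ˣ) : LL U)}

end lim

/-- [BSG] `BA` is a stable subgroup and `BT` is a subgroup.

PROOF.  `BA`: the points with coordinates in the subfield `F1` (which contains the constants,
`F1_const`) form a subgroup (`NFD_InF`, `ptSub`) and `cmb` is additive; stable: `cmb P (mo α m) =
O.act α (cmb P m)` for the germs (`f.act`, `gpt_cmb`, `gpt_act`) and `InF_act`.  `BT`: `mem_CoTS`; for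
`n χ`, `n' χ'` take the multiplier `n * n'`. -/
def St_BSG (D : Derivation ℤ Qb Qb) : Prop :=
  ∀ (G : SV) (O : OAct G.A) (F : G.cd.FD O) (N NT Q : Type) [Fintype N] [Fintype NT]
    (U : Ultrafilter Q) (f : Fm G O F N NT Q),
    (∃ B : AddSubgroup (N → ℤ), (B : Set (N → ℤ)) = BA D U f ∧ StabL O f.mo B) ∧
      ∃ B : AddSubgroup (NT → ℤ), (B : Set (NT → ℤ)) = BT D U f

/-- [KRN] The kernel of the forms on the internal relations.

PROOF.  KAB with the two sorts `σ = Bool`: `N true = N`, `B true = Fin g`, `N false = NT`,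
`B false = Option (L × Fin g)`, `w true ν l = fun E => lgA G.A E (gpt U (P · ν)) l`,
`w false τ b = tF G (gmT U (TP · τ)) b`, `M`, `a`, `μ s ν b = ger U (fun k => mu b (P k ν))` (or `T`)
from PFA and PFT (`E` is trivial on `F1`, so on the range of `gerC`), `R true = RgA`, `R false = RgT`:
a generator `m` of `RgA` has `∂`-constant coordinates (integers), and for `E` trivial on `F1`
`∑ ν, m_ν * E (μ ν b) = E (∑ ν, m_ν * μ ν b)` (`m_ν ∈ cns ≤ F1`) `= E (ger U (mu b (cmb (P k) (m k))))
= E 0 = 0`; the same for `T`.  `Z = {(false, some p)}`.  `x true = xA`, `x false τ none = xT τ`,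
`x false τ (some p) = 0`.  Every generator `y` of the conclusion of KAB has coordinates in `F1`, and KERS
(with the subfield `F1`, which contains the constants (`F1_const`) and is algebraically closed because
`LL U` is (`grm_isAlgClosed`), the points `gpt U (P · ν)`, the T-elements `gmT U (TP · τ)`, the classes
`f.c`, the action `f.mo`, base from `f.base` (`gpt_cmb`), `f.act` (`gpt_act`; the difference is `0`
whose coordinates are constants), INDS from `f.fim` by the theorem of ZPS/C/IndS) gives the two claims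
for `y`; the claims are linear in `(xA, xT)`. -/
def St_KRN (D : Derivation ℤ Qb Qb) : Prop :=
  ∀ (G : SV) (O : OAct G.A) (F : G.cd.FD O) (N NT Q : Type) [Fintype N]
    [Fintype NT] (U : Ultrafilter Q) (f : Fm G O F N NT Q) (xA : N × Fin G.A.g → LL U)
    (xT : NT → LL U), (∀ l, (fun ν => xA (ν, l)) ∈ RgA U f) → xT ∈ RgT U f →
    (∀ E : Derivation ℤ (LL U) (LL U), (∀ z ∈ F1 U D, E z = 0) →
      ∑ p, xA p * lgA G.A E (gpt U (fun k => f.P k p.1)) p.2 +
        ∑ τ, xT τ * etaT G E (gmT U (fun k => f.TP k τ)) = 0) →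
    xT ∈ Submodule.span (LL U) {v | ∃ χ ∈ BT D U f, v = fun τ => ((χ τ : ℤ) : LL U)} ∧
    xA ∈ Submodule.span (LL U) {v | ∃ (α : N → O.O) (l : Fin G.A.g),
      (∀ a, (∑ ν, O.act (LL U) (α ν) (gpt U (fun k => f.P k ν))).v a ∈ F1 U D) ∧
      v = fun p => algebraMap Qb (LL U) (O.rho (α p.1) l p.2)}

/-! ### counting -/

/-- [CNT] The vectors of a stable group modulo the vectors of another stable group.

PROOF.  For a subgroup `R` write `V R = span {tv m l : m ∈ R}`; `TS (rsp R) = V R` (`tv` is additive in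
`w`, real multiples are complex multiples).  `V R ⊔ V B = V (R ⊔ B) = TS (rsp (R ⊔ B))`.  DIMF for
`rsp (R ⊔ B) = rsp R ⊔ rsp B` (`rsp_sup` in ZPA/G/NLR) and for `rsp B` (`Stab` from `StabL` by RSP), and the
modular law `la_MOD` (`dF_eq`). -/
def St_CNT : Prop :=
  ∀ (A : AV) (O : OAct A), SEMA O → ∀ (N : Type) [Fintype N]
    (mo : O.O →+* Module.End ℤ (N → ℤ)) (R B : AddSubgroup (N → ℤ)), StabL O mo R → StabL O mo B →
    finrank ℂ (Submodule.span ℂ {v : N × Fin A.g → ℂ | ∃ m ∈ B, ∃ l, v = tv (X := A) ℂ m l} ⊔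
        RelS O mo ℂ : Submodule ℂ (N × Fin A.g → ℂ)) + dF O mo (rsp (R : Set (N → ℤ))) ≤
      finrank ℂ (Submodule.span ℂ {v : N × Fin A.g → ℂ | ∃ m ∈ R, ∃ l, v = tv (X := A) ℂ m l} ⊔
        (Submodule.span ℂ {v : N × Fin A.g → ℂ | ∃ m ∈ B, ∃ l, v = tv (X := A) ℂ m l} ⊔
          RelS O mo ℂ) : Submodule ℂ (N × Fin A.g → ℂ)) +
      dF O mo (rsp (R : Set (N → ℤ)) ⊓ rsp (B : Set (N → ℤ)))

/-- [CNS] The same for the T-elements.

PROOF.  The complex span of a set of integral vectors has the same dimension as the real span;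
`span (R ∪ B) = span R ⊔ span B`, and the dimension formula for the real subspaces `rsp R`, `rsp B`. -/
def St_CNS : Prop :=
  ∀ (N : Type) [Fintype N] (R B : AddSubgroup (N → ℤ)),
    finrank ℂ (Submodule.span ℂ {v : N → ℂ | ∃ m ∈ B, v = fun ν => ((m ν : ℤ) : ℂ)}) + rkR R ≤
      finrank ℂ (Submodule.span ℂ {v : N → ℂ | ∃ m ∈ R, v = fun ν => ((m ν : ℤ) : ℂ)} ⊔
        Submodule.span ℂ {v : N → ℂ | ∃ m ∈ B, v = fun ν => ((m ν : ℤ) : ℂ)} :
          Submodule ℂ (N → ℂ)) +
      finrank ℝ (rsp (R : Set (N → ℤ)) ⊓ rsp (B : Set (N → ℤ)) : Submodule ℝ (N → ℝ))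

/-- [FNA] The invariant forms as functionals on the derivations: linear, and zero on the derivations
which are trivial on the coordinates (from LG3). -/
def St_FNA : Prop :=
  ∀ (A : AV) (K : Type) [Field K] [Algebra Qb K] (P : A.toAVD.Pt K) (l : Fin A.g),
    (∀ E E' : Derivation ℤ K K, lgA A (E + E') P l = lgA A E P l + lgA A E' P l) ∧
    (∀ (a : K) (E : Derivation ℤ K K), lgA A (a • E) P l = a * lgA A E P l) ∧
    ∀ E : Derivation ℤ K K, (∀ a, E (P.v a) = 0) → lgA A E P l = 0

/-- [FNT] The forms of the T-elements as functionals on the derivations.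

PROOF.  `lgT` is a linear expression in the derivatives `D (P.v a)`, `D ((P + cP K c).v a)` (unfold
`lgT`).  If `E` is trivial on the constants and on the coordinates of `P` then it is trivial on
`IntermediateField.adjoin Qb (Set.range P.v)`, which contains the coordinates of `P + cP K c`
(`InF_add`, the law is given by polynomials over the constants). -/
def St_FNT : Prop :=
  ∀ (G : SV) (K : Type) [Field K] [Algebra Qb K] (x : G.cd.T K),
    (∀ E E' : Derivation ℤ K K, etaT G (E + E') x = etaT G E x + etaT G E' x) ∧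
    (∀ (a : K) (E : Derivation ℤ K K), etaT G (a • E) x = a * etaT G E x) ∧
    ∀ E : Derivation ℤ K K, KQ E → (∀ l a, E ((x.b l).v a) = 0) → E ((x.u : Kˣ) : K) = 0 →
      etaT G E x = 0

/-- [AXD] The bound for the unbounded part.

PROOF.  Suppose not.  Then for almost all `k` there are `eA k, eT k : ℕ` with
`dF (rsp R_k) = eA k + dF (rsp R_k ⊓ rsp BA)`, `rkR R'_k = eT k + finrank (rsp R'_k ⊓ rsp BT)`
(`R_k = relL (f.P k)`, `R'_k = relT (f.TP k)`; `dF` is monotone by `la_MONO`) and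
`trd F1 Z + 1 ≤ eA k + eT k`, `Z = crdF U f`.  They are bounded (`eA k ≤ dF ⊤`, `eT k ≤ |NT|`), so
`eA, eT` are constant for almost all `k`.  Let `V₁ = span {tv m l : m ∈ BA} ⊔ RelS O f.mo ℂ`,
`V₂ = span {χ : χ ∈ BT}`.  By CNT and SEL (with `S = {tv m l : m ∈ R_k}`, `V = V₁`) there are
`m_s(k) ∈ R_k`, `l_s(k)`, `s < eA`, such that the `tv m_s(k) l_s(k)` are independent modulo `V₁`;
`l_s(k) = l_s` for almost all `k`.  By CNS and SEL there are `χ_s(k) ∈ R'_k`, `s < eT`, independent
modulo `V₂`.  So the `eA + eT` vectors `(tv m_s l_s, 0)`, `(0, χ_s)` of `ℂ ^ ((N × Fin g) ⊕ NT)` are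
independent modulo `V = V₁ × V₂`, and by GLI their germs are independent modulo the span of `V`.  Let
`θ_s(E) = ∑ p, (germ of tv m_s l_s) p * lgA E P_p.1 p.2` and `θ_s(E) = ∑ τ, (germ of χ_s) τ * etaT E T_τ`.
Let `a : Fin (eA + eT) → L` with `∑ a_s θ_s(E) = 0` for all `E` trivial on `F1`.  `xA = ∑ a_s (tv m_s l_s)`,
`xT = ∑ a_s χ_s` satisfy the hypotheses of KRN, so `xT` lies in the span of `BT`, and `xA` in the span of
the vectors `p ↦ rho (α p.1) l p.2` with `∑ ν, α ν P_ν` limited.  Such a vector is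
`tv m l - ∑ ν, rv f.mo (α ν) ν l` with `m = ∑ ν, f.mo (α ν) (Pi.single ν 1)`, `cmb P m = ∑ ν, α ν P_ν`
(by `f.act`), so `m ∈ BA`.  So `(xA, xT)` lies in the span of `V` over `L`, and `a = 0` by GLI.  By RKT
(with `F = F1 U D`; the `θ_s` are linear and zero on the derivations which are trivial on `F1` and `Z`
by FNA, FNT; the base coordinates `(T_τ.b l).v a` are algebraic over the coordinates of the `P_ν`:
`T_τ.b l = cmb P (f.c l τ)`, `InF_cmb`, so a derivation which is trivial on `F1 ∪ Z` is trivial on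
them), `eA + eT ≤ trd F1 Z`, a contradiction. -/
def St_AXD (D : Derivation ℤ Qb Qb) : Prop :=
  ∀ (G : SV) (O : OAct G.A) (F : G.cd.FD O), SEMA O → ∀ (N NT Q : Type) [Fintype N]
    [Fintype NT] (U : Ultrafilter Q) (f : Fm G O F N NT Q), ∀ᶠ k in (U : Filter Q),
    dF O f.mo (rsp (relL (f.P k) : Set (N → ℤ))) + rkR (relT (f.TP k)) ≤
      trd (F1 U D : Set (LL U)) (crdF U f) +
      (dF O f.mo (rsp (relL (f.P k) : Set (N → ℤ)) ⊓ rsp (BA D U f)) +
        finrank ℝ (rsp (relT (f.TP k) : Set (NT → ℤ)) ⊓ rsp (BT D U f) :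
          Submodule ℝ (NT → ℝ)))

/-! ### the family of the limited combinations -/

/-- [ALT] algebraic dependence in terms of the transcendence degree

PROOF.  As in ZPS/G/ALF.lean (private theorems ALF_trd, ALF_rel; `AlgF` is `ALF_Al` for the family
`Sum.elim ...`, see the proof of `AlgF_of`). -/
def St_ALT : Prop :=
  ∀ (G : SV) (O : OAct G.A) (F : G.cd.FD O) (N NT Q : Type) [Fintype N] [Fintype NT]
    (U : Ultrafilter Q) (f : Fm G O F N NT Q) (d : ℕ),
    AlgF U f.P f.TP d ↔ trd (Set.range (algebraMap Qb (LL U))) (crdF U f) ≤ d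

/-- [NEW] The family of the limited combinations.

PROOF.  Let `B_1, ..., B_r` be a `ℤ`-basis of `BA` and `C_1, ..., C_s` a `ℤ`-basis of `BT`, and `n > 0`
such that `n • cmbT T C_j` has coordinates in `F1` for all `j` (product of the multipliers).  `BA` is
stable under `f.mo` (`InF_act`), so RSP (second part) gives the action `mo'` on `ℤ ^ r`.
`f'.P k i = cmb (f.P k) (B i)`, `f'.TP k j = n • cmbT (f.TP k) (C j)`; the base point `l` of
`f'.TP k j` is `cmb (f.P k) (n • cc f.c l (C j))`, its germ has coordinates in `F1`, so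
`n • cc f.c l (C j) ∈ BA` and `= ∑ i, f'.c l j i • B i`.  The condition `fim` follows from `f.fim` by
linearity and the injectivity of `m ↦ ∑ m i • B i`.
`m ∈ relL (f'.P k) ↔ ∑ m i • B i ∈ relL (f.P k)`, so `rsp (relL (f'.P k))` is mapped by the injective
real map `w ↦ ∑ w i • ca (B i)` onto `rsp (relL (f.P k) ⊓ BA) = rsp (relL (f.P k)) ⊓ rsp BA`
(`rsp_inf` in ZPA/G/NLR), and EQV gives the equality of `dF`.  `evL U f.P ≤ BA` (the coordinates of the
zero point are constants).  The same for `T`: `χ ∈ relT (f'.TP k) ↔ n • ∑ χ j • C j ∈ relT (f.TP k)`.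
The coordinates of the new family are algebraic over the constants and the coordinates of `f`
(`InF_cmb`; for the scalars of the T-elements as in `AlgF_cmbT`). -/
def St_NEW (D : Derivation ℤ Qb Qb) : Prop :=
  ∀ (G : SV) (O : OAct G.A) (F : G.cd.FD O), SEMA O → ∀ (N NT Q : Type) [Fintype N]
    [Fintype NT] (U : Ultrafilter Q) (f : Fm G O F N NT Q),
    ∃ (r s : ℕ) (f' : Fm G O F (Fin r) (Fin s) Q), LimF D U f' ∧
      (∀ k, dF O f.mo (rsp (relL (f.P k) : Set (N → ℤ)) ⊓ rsp (BA D U f)) =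
        dF O f'.mo (rsp (relL (f'.P k) : Set (Fin r → ℤ)))) ∧
      (∀ k, finrank ℝ (rsp (relT (f.TP k) : Set (NT → ℤ)) ⊓ rsp (BT D U f) :
        Submodule ℝ (NT → ℝ)) = rkR (relT (f'.TP k))) ∧
      dF O f'.mo (rsp (evL U f'.P : Set (Fin r → ℤ))) ≤
        dF O f.mo (rsp (evL U f.P : Set (N → ℤ))) ∧
      rkR (evT U f'.TP) ≤ rkR (evT U f.TP) ∧
      ∀ y ∈ crdF U f', IsAlgebraic
        (Subfield.closure (Set.range (algebraMap Qb (LL U)) ∪ crdF U f)) y

/-- [RED] The reduction to limited families.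

PROOF.  `f'` from NEW.  `X = Set.range (algebraMap ..)`, `Y = crdF U f' ⊆ F1` (LimF), `Z = crdF U f`.
TRA: `trd X Y + trd F1 Z ≤ trd X Z ≤ d` (ALT).  SPKL for `f'` with `d - trd F1 Z` (ALT) and AXD. -/
def St_RED (D : Derivation ℤ Qb Qb) : Prop := SPKL D → SPKs

end Pool.Agent.ZPCd
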